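import Pool.Agent.Helper56.LD.Basics
import Pool.Agent.Helper56.LD.Goals

/-! Packet LD-SM7 (`StmtHit`) of MP_0152c0_gt. -/

set_option autoImplicit false

namespace Pool.Agent.Helper77.LD

open Set Filter Topology
open Pool.Agent.Helper56.LD

section

variable {L Ω : Type} [DecidableEq L] [DecidableEq Ω]

theorem YS_sub (lt : ℕ → L → Ω) (b : ℕ → L → Prop) (E S : Set (ℕ → L)) (hS : S ⊆ E) (τ : ℝ) :
    YS lt b E S τ ⊆ MSet lt E := by
  rintro y ⟨n, e, w, hw, rfl, -, h⟩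
  refine pt_mem lt n ?_ hw
  rcases h with ⟨h, -⟩ | ⟨h, -⟩
  · exact hS h
  · exact h.1

theorem GS_sub (lt : ℕ → L → Ω) (b : ℕ → L → Prop) (E S : Set (ℕ → L)) (hS : S ⊆ E) (τ : ℝ)
    (hM : IsClosed (MSet lt E)) : GS lt b E S τ ⊆ MSet lt E :=
  closure_minimal (YS_sub lt b E S hS τ) hM

/-- domination of the values by the core values -/
theorem GS_dom (lt : ℕ → L → Ω) (b b' : ℕ → L → Prop) (E S : Set (ℕ → L)) (hS : S ⊆ E) (τ : ℝ)
    (hb : ∀ j l, b' j l → b j l) : GS lt b E S τ ⊆ GS lt b' E E τ := by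
  refine closure_mono ?_
  rintro y ⟨n, e, w, hw, rfl, hU, h⟩
  refine ⟨n, e, w, hw, rfl, fun j h1 h2 h3 => hU j h1 h2 (hb _ _ h3), ?_⟩
  rcases h with ⟨h, h'⟩ | ⟨h, h'⟩
  · exact Or.inl ⟨hS h, h'⟩
  · exact Or.inr ⟨subset_sat (b := b') (subset_refl E) h.1, h'⟩

end

section

variable {L Ω : Type} [DecidableEq L] [DecidableEq Ω] [TopologicalSpace L] [DiscreteTopology L]
  [Finite L] [Finite Ω]

theorem usc_patch (hU : StmtUSC) (Z : Sys L Ω) {n n' : ℕ} (hn : 1 ≤ n)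
    (hn' : n' = n ∨ n' = n + 1) (l : L) :
    IsClosed {q : (ℕ → L) × ℝ × Amb L Ω | q.1 ∈ {a | a ∈ Z.E ∧ a n = l} ∧
      q.2.1 ∈ Icc (0 : ℝ) 1 ∧ q.2.2 ∈ GS Z.lt (Z.bl n (Z.lt n l)) Z.E (Z.S n' q.1) q.2.1} := by
  have h1n' : 1 ≤ n' := by omega
  have hln : IsClosed {a : ℕ → L | a n = l} :=
    isClosed_eq (continuous_apply n) continuous_const
  have hA : IsClosed {a : ℕ → L | a ∈ Z.E ∧ a n = l} := Z.E_closed.inter hln
  refine hU L Ω Z.lt (Z.bl n (Z.lt n l)) Z.E Z.E_closed {a | a ∈ Z.E ∧ a n = l} (Z.S n')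
    (fun a ha => Z.S_sub n' a h1n' ha.1) ?_ hA ⟨n + 1, ?_⟩ ?_
  · have h := (Z.c1 n' h1n').inter (hln.preimage (continuous_fst (X := ℕ → L) (Y := ℕ → L)))
    convert h using 1
    ext p
    simp only [mem_ofPred_eq, mem_inter_iff, mem_preimage]
    tauto
  · intro a ha e he hUB
    have h := Z.c3 n n' a hn hn' ha.1 e
    rw [ha.2] at h
    exact h he hUB
  · intro a ha
    obtain ⟨K, hK⟩ := Z.c4 n n' a hn hn' ha.1
    rw [ha.2] at hK
    exact ⟨K, fun a' ha' h e he hUB => hK a' ha'.1 h e he hUB⟩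

theorem compact_patch (hC : StmtCompact) (hU : StmtUSC) (Z : Sys L Ω) {C : Set (Amb L Ω)}
    (hCl : IsClosed C) {n n' : ℕ} (hn : 1 ≤ n) (hn' : n' = n ∨ n' = n + 1) (lev : ℕ)
    {J : Set ℝ} (hJ : IsCompact J) {f : ℝ → ℝ} (hf : Continuous f)
    (hfJ : ∀ w ∈ J, f w ∈ Icc (0 : ℝ) 1) :
    IsCompact {x : Amb L Ω | ∃ a ∈ Z.E, ∃ w ∈ J, x = pt Z.lt lev a w ∧
      (GS Z.lt (Z.bl n (Z.lt n (a n))) Z.E (Z.S n' a) (f w) ∩ C).Nonempty} := by
  have : CompactSpace L := Finite.compactSpace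
  have hM := hC L Ω Z.lt Z.E Z.E_closed
  have h1n' : 1 ≤ n' := by omega
  have hQ : IsClosed (⋃ l : L, {q : (ℕ → L) × ℝ × Amb L Ω | q.1 ∈ {a | a ∈ Z.E ∧ a n = l} ∧
      q.2.1 ∈ Icc (0 : ℝ) 1 ∧ q.2.2 ∈ GS Z.lt (Z.bl n (Z.lt n l)) Z.E (Z.S n' q.1) q.2.1}) :=
    isClosed_iUnion_of_finite fun l => usc_patch hU Z hn hn' l
  have hK : IsCompact (Z.E ×ˢ (J ×ˢ MSet Z.lt Z.E)) :=
    Z.E_closed.isCompact.prod (hJ.prod hM)
  have hg : Continuous fun t : (ℕ → L) × ℝ × Amb L Ω => (t.1, f t.2.1, t.2.2) :=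
    continuous_fst.prodMk ((hf.comp (continuous_fst.comp continuous_snd)).prodMk
      (continuous_snd.comp continuous_snd))
  have hK2 := (hK.inter_right (hCl.preimage
    ((continuous_snd (X := ℝ) (Y := Amb L Ω)).comp (continuous_snd (X := ℕ → L))))).inter_right
      (hQ.preimage hg)
  have himg := hK2.image (f := fun t : (ℕ → L) × ℝ × Amb L Ω => pt Z.lt lev t.1 t.2.1)
    ((continuous_pt Z.lt lev).comp (continuous_fst.prodMk (continuous_fst.comp continuous_snd)))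
  convert himg using 1
  ext x
  constructor
  · rintro ⟨a, ha, w, hw, rfl, y, hy, hyC⟩
    refine ⟨(a, w, y), ⟨⟨⟨ha, hw, ?_⟩, hyC⟩, ?_⟩, rfl⟩
    · exact GS_sub _ _ _ _ (Z.S_sub n' a h1n' ha) _ hM.isClosed hy
    · exact mem_iUnion.2 ⟨a n, ⟨ha, rfl⟩, hfJ w hw, hy⟩
  · rintro ⟨⟨a, w, y⟩, ⟨⟨⟨ha, hw, hy⟩, hyC⟩, hq⟩, rfl⟩
    obtain ⟨l, ⟨_, hl⟩, _, hy'⟩ := mem_iUnion.1 hq
    have hl' : a n = l := hl
    rw [← hl'] at hy'
    exact ⟨a, ha, w, hw, rfl, y, hy', hyC⟩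

/-- the core values form a closed family -/
theorem core_closed (hU : StmtUSC) (Z : Sys L Ω) (ω : Ω) :
    IsClosed {q : ℝ × Amb L Ω | q.1 ∈ Icc (0 : ℝ) 1 ∧
      q.2 ∈ GS Z.lt (Z.bl ⊤ ω) Z.E Z.E q.1} := by
  obtain ⟨a0, ha0⟩ := Z.E_ne
  have h := hU L Ω Z.lt (Z.bl ⊤ ω) Z.E Z.E_closed Z.E (fun _ => Z.E)
    (fun _ _ => subset_refl _) (Z.E_closed.prod Z.E_closed) Z.E_closed
    ⟨0, fun a _ e he _ => he.1⟩ (fun a _ => ⟨0, fun a' _ _ e he _ => he⟩)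
  have h2 := h.preimage (f := fun q : ℝ × Amb L Ω => (a0, q.1, q.2))
    (continuous_const.prodMk (continuous_fst.prodMk continuous_snd))
  convert h2 using 1
  ext q
  simp only [mem_ofPred_eq, mem_preimage]
  tauto

/-- Packet SM7. -/
theorem hit (hC : StmtCompact) (hU : StmtUSC) : StmtHit := by
  intro L Ω _ _ _ _ _ _ Z C hCl
  have hM := hC L Ω Z.lt Z.E Z.E_closed
  set H : Set (Amb L Ω) :=
    {x : Amb L Ω | x ∈ MSet Z.lt Z.E ∧ ∃ V, IsVal Z x V ∧ (V ∩ C).Nonempty} with hH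
  -- the core majorant
  set H' : Set (Amb L Ω) := ⋃ ω : Ω, Prod.fst '' ((MSet Z.lt Z.E ×ˢ MSet Z.lt Z.E) ∩
    {q : Amb L Ω × Amb L Ω | (∀ ω', ω' ≠ ω → q.1.2.2 ω' = 0) ∧ q.2 ∈ C ∧
      (q.1.2.2 ω, q.2) ∈ {q : ℝ × Amb L Ω | q.1 ∈ Icc (0 : ℝ) 1 ∧
        q.2 ∈ GS Z.lt (Z.bl ⊤ ω) Z.E Z.E q.1}}) with hH'
  have hH'cl : IsClosed H' := by
    refine isClosed_iUnion_of_finite fun ω => ?_
    refine IsCompact.isClosed ?_
    refine ((hM.prod hM).inter_right ?_).image continuous_fst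
    have hc : ∀ ω', Continuous fun q : Amb L Ω × Amb L Ω => q.1.2.2 ω' := fun ω' =>
      (continuous_apply ω').comp (continuous_snd.comp (continuous_snd.comp continuous_fst))
    have e1 : IsClosed {q : Amb L Ω × Amb L Ω | ∀ ω', ω' ≠ ω → q.1.2.2 ω' = 0} := by
      simp only [Set.ofPred_forall]
      exact isClosed_iInter fun ω' => isClosed_iInter fun _ =>
        isClosed_eq (hc ω') continuous_const
    exact e1.inter ((hCl.preimage continuous_snd).inter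
      ((core_closed hU Z ω).preimage ((hc ω).prodMk continuous_snd)))
  have hsub : H ⊆ H' := by
    rintro x ⟨hx, V, hV, y, hy, hyC⟩
    have aux : ∀ ω : Ω, (∀ ω', ω' ≠ ω → x.2.2 ω' = 0) → x.2.2 ω ∈ Icc (0 : ℝ) 1 →
        y ∈ GS Z.lt (Z.bl ⊤ ω) Z.E Z.E (x.2.2 ω) → x ∈ H' := by
      intro ω h1 h2 h3
      exact mem_iUnion.2 ⟨ω, (x, y), ⟨⟨hx, GS_sub _ _ _ _ (subset_refl _) _ hM.isClosed h3⟩,
        h1, hyC, h2, h3⟩, rfl⟩
    have auxn : ∀ (n n' : ℕ) (a : ℕ → L) (w : ℝ), 1 ≤ n → 1 ≤ n' → a ∈ Z.E →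
        w ∈ Icc (0 : ℝ) 1 → x = pt Z.lt n a w →
        V = GS Z.lt (Z.bl n (Z.lt n (a n))) Z.E (Z.S n' a) (tent w) → x ∈ H' := by
      intro n n' a w hn hn' ha hw hxe hVe
      have hstar : x.2.2 (Z.lt n (a n)) = tent w := by
        rw [hxe, pt_star, if_pos ⟨hn, rfl⟩]
      refine aux (Z.lt n (a n)) ?_ ?_ ?_
      · intro ω' hω'
        rw [hxe, pt_star, if_neg]
        rintro ⟨-, h⟩
        exact hω' h.symm
      · rw [hstar]
        exact tent_mem hw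
      · rw [hstar]
        rw [hVe] at hy
        exact GS_dom _ _ _ _ _ (Z.S_sub n' a hn' ha) _ (fun j l h => Z.b2 n _ j l h) hy
    rcases hV with ⟨a, ha, w, hw, hxe, hVe⟩ | ⟨n, hn, a, ha, w, hw, hxe, hVe⟩ |
      ⟨n, hn, a, ha, w, hw, hxe, hVe⟩ | ⟨ω, r, hr, hxe, hVe⟩
    · have hst : ∀ ω', x.2.2 ω' = 0 := by
        intro ω'
        rw [hxe, pt_star, if_neg]
        rintro ⟨h, -⟩
        omega
      refine aux (Z.lt 0 (a 0)) (fun ω' _ => hst ω') ?_ ?_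
      · rw [hst]
        exact ⟨le_rfl, zero_le_one⟩
      · rw [hst]
        rw [hVe] at hy
        have hS := Z.S_sub 1 a le_rfl ha
        have h5 : YS Z.lt (Z.bl 1 (Z.lt 1 (a 1))) Z.E (Z.S 1 a) 0 ⊆
            YS Z.lt (Z.bl ⊤ (Z.lt 0 (a 0))) Z.E Z.E 0 := by
          rw [GS_zero_subset, GS_zero_subset]
          rintro z ⟨e, he, rfl⟩
          exact ⟨e, hS he, rfl⟩
        exact closure_mono h5 hy
    · exact auxn n n a w hn hn ha ⟨le_trans (by norm_num) hw.1, hw.2⟩ hxe hVe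
    · exact auxn n (n + 1) a w hn (by omega) ha ⟨hw.1, hw.2.trans (by norm_num)⟩ hxe hVe
    · have hstar : x.2.2 ω = r := by
        rw [hxe, cpt_star, if_pos rfl]
      refine aux ω ?_ ?_ ?_
      · intro ω' hω'
        rw [hxe, cpt_star, if_neg hω']
      · rw [hstar]
        exact hr
      · rw [hstar, ← hVe]
        exact hy
  have hcore : ∀ x ∈ H', x ∈ MSet Z.lt Z.E → x.1 ≤ 0 → x ∈ H := by
    intro x hx hxM hx0
    obtain ⟨ω0, r, hr, rfl⟩ := exists_core_rep hxM hx0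
    obtain ⟨ω, ⟨x', y⟩, ⟨⟨-, -⟩, hz, hyC, hr', hy⟩, hxx⟩ := mem_iUnion.1 hx
    have hxx' : x' = cpt ω0 r := hxx
    subst hxx'
    simp only [cpt_star] at hz hr' hy
    refine ⟨hxM, ?_⟩
    by_cases h0 : r = 0
    · subst h0
      rw [ite_self] at hy
      refine ⟨_, Or.inr (Or.inr (Or.inr ⟨ω, 0, hr, ?_, rfl⟩)), y, hy, hyC⟩
      refine amb_ext rfl (fun _ _ => rfl) fun ω' => ?_
      simp
    · have h1 : ω0 = ω := by
        by_contra hne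
        have := hz ω0 hne
        rw [if_pos rfl] at this
        exact h0 this
      subst h1
      rw [if_pos rfl] at hy
      exact ⟨_, Or.inr (Or.inr (Or.inr ⟨ω0, r, hr, rfl, rfl⟩)), y, hy, hyC⟩
  -- closedness
  refine isClosed_of_closure_subset fun x hx => ?_
  have hxM : x ∈ MSet Z.lt Z.E :=
    closure_minimal (fun z hz => hz.1) hM.isClosed hx
  rcases le_or_gt x.1 0 with h0 | h0
  · exact hcore x (closure_minimal hsub hH'cl hx) hxM h0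
  · obtain ⟨N, hN⟩ := exists_pow_lt_of_lt_one h0 (by norm_num : (1 / 2 : ℝ) < 1)
    rw [one_div_pow] at hN
    have hO : IsOpen {z : Amb L Ω | 1 / 2 ^ N < z.1} :=
      isOpen_lt continuous_const continuous_fst
    have hx2 : x ∈ closure ({z : Amb L Ω | 1 / 2 ^ N < z.1} ∩ H) :=
      hO.inter_closure ⟨hN, hx⟩
    set P0 := {x : Amb L Ω | ∃ a ∈ Z.E, ∃ w ∈ Icc (0 : ℝ) 1, x = pt Z.lt 0 a w ∧
      (GS Z.lt (Z.bl (1 : ℕ) (Z.lt 1 (a 1))) Z.E (Z.S 1 a) ((fun _ => 0) w) ∩ C).Nonempty}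
      with hP0
    set P1 : ℕ → Set (Amb L Ω) := fun n => {x : Amb L Ω | ∃ a ∈ Z.E, ∃ w ∈ Icc (1 / 2 : ℝ) 1,
      x = pt Z.lt n a w ∧
      (GS Z.lt (Z.bl n (Z.lt n (a n))) Z.E (Z.S n a) (tent w) ∩ C).Nonempty} with hP1
    set P2 : ℕ → Set (Amb L Ω) := fun n => {x : Amb L Ω | ∃ a ∈ Z.E, ∃ w ∈ Icc (0 : ℝ) (1 / 2),
      x = pt Z.lt n a w ∧
      (GS Z.lt (Z.bl n (Z.lt n (a n))) Z.E (Z.S (n + 1) a) (tent w) ∩ C).Nonempty} with hP2
    have c0 : IsClosed P0 :=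
      (compact_patch hC hU Z hCl (n := 1) (n' := 1) le_rfl (Or.inl rfl) 0 isCompact_Icc
        continuous_const (fun w _ => ⟨le_rfl, zero_le_one⟩)).isClosed
    have c1 : ∀ n, 1 ≤ n → IsClosed (P1 n) := fun n hn =>
      (compact_patch hC hU Z hCl (n := n) (n' := n) hn (Or.inl rfl) n isCompact_Icc
        continuous_tent (fun w hw => tent_mem ⟨le_trans (by norm_num) hw.1, hw.2⟩)).isClosed
    have c2 : ∀ n, 1 ≤ n → IsClosed (P2 n) := fun n hn =>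
      (compact_patch hC hU Z hCl (n := n) (n' := n + 1) hn (Or.inr rfl) n isCompact_Icc
        continuous_tent (fun w hw => tent_mem ⟨hw.1, hw.2.trans (by norm_num)⟩)).isClosed
    have hcl : IsClosed (P0 ∪ ⋃ n ∈ Finset.Icc 1 N, (P1 n ∪ P2 n)) := by
      refine c0.union (isClosed_biUnion_finset fun n hn => ?_)
      have := (Finset.mem_Icc.1 hn).1
      exact (c1 n this).union (c2 n this)
    have hlev : ∀ (n : ℕ) (w : ℝ), w ≤ 1 → 1 / 2 ^ N < hgt n w → n ≤ N := by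
      intro n w hw h
      by_contra hcon
      push Not at hcon
      have h2 : (1 : ℝ) / 2 ^ n ≤ 1 / 2 ^ N := by
        apply one_div_le_one_div_of_le (by positivity)
        exact pow_le_pow_right₀ (by norm_num) hcon.le
      have := hgt_le (n := n) hw
      linarith
    have hinc : {z : Amb L Ω | 1 / 2 ^ N < z.1} ∩ H ⊆
        P0 ∪ ⋃ n ∈ Finset.Icc 1 N, (P1 n ∪ P2 n) := by
      rintro z ⟨hz, hzM, V, hV, hne⟩
      have hz' : 1 / 2 ^ N < z.1 := hz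
      rcases hV with ⟨a, ha, w, hw, hxe, hVe⟩ | ⟨n, hn, a, ha, w, hw, hxe, hVe⟩ |
        ⟨n, hn, a, ha, w, hw, hxe, hVe⟩ | ⟨ω, r, hr, hxe, hVe⟩
      · left
        refine ⟨a, ha, w, hw, hxe, ?_⟩
        rw [hVe] at hne
        exact hne
      · right
        rw [hxe] at hz'
        refine mem_iUnion₂.2 ⟨n, Finset.mem_Icc.2 ⟨hn, hlev n w hw.2 hz'⟩, Or.inl ?_⟩
        rw [hVe] at hne
        exact ⟨a, ha, w, hw, hxe, hne⟩
      · right
        rw [hxe] at hz'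
        refine mem_iUnion₂.2 ⟨n, Finset.mem_Icc.2 ⟨hn, hlev n w (hw.2.trans (by norm_num)) hz'⟩,
          Or.inr ?_⟩
        rw [hVe] at hne
        exact ⟨a, ha, w, hw, hxe, hne⟩
      · rw [hxe, cpt_fst] at hz'
        have : (0 : ℝ) < 1 / 2 ^ N := by positivity
        linarith
    rcases closure_minimal hinc hcl hx2 with h | h
    · obtain ⟨a, ha, w, hw, hxe, hne⟩ := h
      exact ⟨hxM, _, Or.inl ⟨a, ha, w, hw, hxe, rfl⟩, hne⟩
    · obtain ⟨n, hn, h⟩ := mem_iUnion₂.1 h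
      have hn1 := (Finset.mem_Icc.1 hn).1
      rcases h with ⟨a, ha, w, hw, hxe, hne⟩ | ⟨a, ha, w, hw, hxe, hne⟩
      · exact ⟨hxM, _, Or.inr (Or.inl ⟨n, hn1, a, ha, w, hw, hxe, rfl⟩), hne⟩
      · exact ⟨hxM, _, Or.inr (Or.inr (Or.inl ⟨n, hn1, a, ha, w, hw, hxe, rfl⟩)), hne⟩

end

end Pool.Agent.Helper77.LD
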